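import Pool.Agent.H211.HY.Stm1
import Pool.Graph.R_seed8.H790R3.RB.TSP
import Pool.Graph.R_seed8.H790R3.RB.TMOB
import Pool.Graph.R_seed8.H790R3.RB.TCJ
import Pool.Graph.R_seed8.H790R3.RB.TWR
import Pool.Graph.R_seed8.H790R3.RB.TALL

/-!
# Normalisation: infinity is not in the critical orbits
-/

set_option autoImplicit false

open Topology Filter Metric Set MeasureTheory Polynomial

namespace Pool.Agent.H922.HY211

open Pool.Agent.H790R3.RB Pool.Agent.H790R3.RB.ALL Pool.Agent.H211.HY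

/-- the linear map with the matrix `(a, b; c, e)` -/
def L (a b c e : ℂ) (p : ℂ × ℂ) : ℂ × ℂ := (a * p.1 + b * p.2, c * p.1 + e * p.2)

section lin

variable {a b c e : ℂ}

theorem L_ne (hdet : a * e - b * c = 1) {p : ℂ × ℂ} (hp : p ≠ 0) : L a b c e p ≠ 0 :=
  fun h => hp (mul_zero' hdet h)

/-- the inverse -/
theorem L_inv (hdet : a * e - b * c = 1) (p : ℂ × ℂ) : L a b c e (L e (-b) (-c) a p) = p := by
  refine Prod.ext ?_ ?_
  · change a * (e * p.1 + -b * p.2) + b * (-c * p.1 + a * p.2) = p.1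
    linear_combination p.1 * hdet
  · change c * (e * p.1 + -b * p.2) + e * (-c * p.1 + a * p.2) = p.2
    linear_combination p.2 * hdet

theorem L_inv' (hdet : a * e - b * c = 1) (p : ℂ × ℂ) : L e (-b) (-c) a (L a b c e p) = p := by
  refine Prod.ext ?_ ?_
  · change e * (a * p.1 + b * p.2) + -b * (c * p.1 + e * p.2) = p.1
    linear_combination p.1 * hdet
  · change -c * (a * p.1 + b * p.2) + a * (c * p.1 + e * p.2) = p.2
    linear_combination p.2 * hdet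

theorem det_inv (hdet : a * e - b * c = 1) : e * a - (-b) * (-c) = 1 := by
  linear_combination hdet

theorem L_surj (hdet : a * e - b * c = 1) {q : ℂ × ℂ} (hq : q ≠ 0) :
    ∃ p, p ≠ 0 ∧ L a b c e p = q :=
  ⟨L e (-b) (-c) a q, L_ne (det_inv hdet) hq, L_inv hdet q⟩

theorem cr_L (hdet : a * e - b * c = 1) (p q : ℂ × ℂ) :
    cr (L a b c e p) (L a b c e q) = cr p q := by
  unfold cr L
  simp only
  linear_combination (p.1 * q.2 - p.2 * q.1) * hdet

theorem N2_pos {p : ℂ × ℂ} (hp : p ≠ 0) : 0 < N2 p := by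
  unfold N2
  rcases eq_or_ne p.1 0 with h1 | h1
  · have h2 : p.2 ≠ 0 := fun h2 => hp (Prod.ext h1 h2)
    have := norm_pos_iff.2 h2
    positivity
  · have := norm_pos_iff.2 h1
    positivity

theorem N2_nonneg (p : ℂ × ℂ) : 0 ≤ N2 p := by
  unfold N2
  positivity

/-- upper bound -/
theorem N2_L_le (a b c e : ℂ) : ∃ K : ℝ, 0 < K ∧ ∀ p, N2 (L a b c e p) ≤ K * N2 p := by
  refine ⟨2 * (‖a‖ ^ 2 + ‖b‖ ^ 2 + ‖c‖ ^ 2 + ‖e‖ ^ 2) + 1, by positivity, fun p => ?_⟩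
  have h : ∀ u v : ℂ, ‖u * p.1 + v * p.2‖ ^ 2 ≤ 2 * (‖u‖ ^ 2 * ‖p.1‖ ^ 2 + ‖v‖ ^ 2 * ‖p.2‖ ^ 2) := by
    intro u v
    have h1 : ‖u * p.1 + v * p.2‖ ≤ ‖u‖ * ‖p.1‖ + ‖v‖ * ‖p.2‖ := by
      refine (norm_add_le _ _).trans ?_
      rw [norm_mul, norm_mul]
    have h2 : ‖u * p.1 + v * p.2‖ ^ 2 ≤ (‖u‖ * ‖p.1‖ + ‖v‖ * ‖p.2‖) ^ 2 :=
      pow_le_pow_left₀ (norm_nonneg _) h1 2
    nlinarith [sq_nonneg (‖u‖ * ‖p.1‖ - ‖v‖ * ‖p.2‖)]
  have h1 := h a b
  have h2 := h c e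
  change ‖a * p.1 + b * p.2‖ ^ 2 + ‖c * p.1 + e * p.2‖ ^ 2 ≤ _
  unfold N2
  nlinarith [sq_nonneg ‖p.1‖, sq_nonneg ‖p.2‖, mul_nonneg (sq_nonneg ‖a‖) (sq_nonneg ‖p.2‖),
    mul_nonneg (sq_nonneg ‖b‖) (sq_nonneg ‖p.1‖), mul_nonneg (sq_nonneg ‖c‖) (sq_nonneg ‖p.2‖),
    mul_nonneg (sq_nonneg ‖e‖) (sq_nonneg ‖p.1‖), mul_nonneg (sq_nonneg ‖c‖) (sq_nonneg ‖p.1‖),
    mul_nonneg (sq_nonneg ‖e‖) (sq_nonneg ‖p.2‖), mul_nonneg (sq_nonneg ‖a‖) (sq_nonneg ‖p.1‖),
    mul_nonneg (sq_nonneg ‖b‖) (sq_nonneg ‖p.2‖)]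

/-- the distortion of the norm -/
theorem N2_bd (hdet : a * e - b * c = 1) : ∃ K : ℝ, 1 ≤ K ∧ ∀ p,
    N2 (L a b c e p) ≤ K * N2 p ∧ N2 p ≤ K * N2 (L a b c e p) := by
  obtain ⟨K, hK, h1⟩ := N2_L_le a b c e
  obtain ⟨K', hK', h2⟩ := N2_L_le e (-b) (-c) a
  refine ⟨max 1 (max K K'), le_max_left _ _, fun p => ⟨?_, ?_⟩⟩
  · exact (h1 p).trans (mul_le_mul_of_nonneg_right
      ((le_max_left _ _).trans (le_max_right _ _)) (N2_nonneg p))
  · have := h2 (L a b c e p)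
    rw [L_inv' hdet] at this
    exact this.trans (mul_le_mul_of_nonneg_right
      ((le_max_right _ _).trans (le_max_right _ _)) (N2_nonneg _))

end lin

section conj

variable {d : ℕ} {a b c e : ℂ} {x y : CV d}

theorem hF_L (hdet : a * e - b * c = 1) (hR : Rel a b c e x y) (p : ℂ × ℂ) :
    hF y (L a b c e p) = L a b c e (hF x p) := rel_apply hdet hR p

theorem hF_iter_L (hdet : a * e - b * c = 1) (hR : Rel a b c e x y) (n : ℕ) (p : ℂ × ℂ) :
    (hF y)^[n] (L a b c e p) = L a b c e ((hF x)^[n] p) := by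
  have : Function.Semiconj (L a b c e) (hF x) (hF y) := fun p => (hF_L hdet hR p).symm
  exact ((this.iterate_right n) p).symm

/-- the continuous linear map -/
noncomputable def LC (a b c e : ℂ) : ℂ × ℂ →L[ℂ] ℂ × ℂ :=
  (a • ContinuousLinearMap.fst ℂ ℂ ℂ + b • ContinuousLinearMap.snd ℂ ℂ ℂ).prod
    (c • ContinuousLinearMap.fst ℂ ℂ ℂ + e • ContinuousLinearMap.snd ℂ ℂ ℂ)

theorem LC_apply (a b c e : ℂ) (p : ℂ × ℂ) : LC a b c e p = L a b c e p := rfl

theorem hF_diff (x : CV d) : Differentiable ℂ (hF x) := by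
  have h1 := (hF_contDiff d 1).comp
    ((contDiff_const (c := x)).prodMk (contDiff_id (𝕜 := ℂ) (E := ℂ × ℂ)))
  exact h1.differentiable (by norm_num)

theorem wr_L (hd : 2 ≤ d) (hdet : a * e - b * c = 1) (hR : Rel a b c e x y) (p : ℂ × ℂ) :
    wr y (L a b c e p) = wr x p := by
  obtain ⟨-, -, hx⟩ := WR d x hd
  obtain ⟨-, -, hy⟩ := WR d y hd
  have h1 : HasFDerivAt (fun q => hF y (L a b c e q))
      ((fderiv ℂ (hF y) (L a b c e p)).comp (LC a b c e)) p :=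
    HasFDerivAt.comp p ((hF_diff y) (L a b c e p)).hasFDerivAt (LC a b c e).hasFDerivAt
  have h2 : HasFDerivAt (fun q => L a b c e (hF x q))
      ((LC a b c e).comp (fderiv ℂ (hF x) p)) p :=
    HasFDerivAt.comp p (LC a b c e).hasFDerivAt ((hF_diff x) p).hasFDerivAt
  have h3 : (fun q => hF y (L a b c e q)) = fun q => L a b c e (hF x q) :=
    funext fun q => hF_L hdet hR q
  rw [h3] at h1
  have h4 := h1.unique h2
  have h5 : ∀ v, fderiv ℂ (hF y) (L a b c e p) (L a b c e v) = L a b c e (fderiv ℂ (hF x) p v) :=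
    fun v => congrArg (fun T : ℂ × ℂ →L[ℂ] ℂ × ℂ => T v) h4
  have h6 := hy (L a b c e p) (L a b c e (1, 0)) (L a b c e (0, 1))
  rw [h5, h5, cr_L hdet, cr_L hdet, hx p (1, 0) (0, 1)] at h6
  have h7 : cr ((1, 0) : ℂ × ℂ) (0, 1) = 1 := by simp [cr]
  rw [h7, mul_one, mul_one] at h6
  exact h6.symm

/-- the distortion function -/
noncomputable def rho (a b c e : ℂ) (p : ℂ × ℂ) : ℝ := N2 (L a b c e p) / N2 p

theorem rho_pos (hdet : a * e - b * c = 1) {p : ℂ × ℂ} (hp : p ≠ 0) : 0 < rho a b c e p :=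
  div_pos (N2_pos (L_ne hdet hp)) (N2_pos hp)

theorem rho_bd (hdet : a * e - b * c = 1) : ∃ K : ℝ, 1 ≤ K ∧ ∀ p : ℂ × ℂ, p ≠ 0 →
    rho a b c e p ≤ K ∧ K⁻¹ ≤ rho a b c e p := by
  obtain ⟨K, hK, h⟩ := N2_bd hdet
  refine ⟨K, hK, fun p hp => ⟨?_, ?_⟩⟩
  · rw [rho, div_le_iff₀ (N2_pos hp)]
    exact (h p).1
  · rw [rho, le_div_iff₀ (N2_pos hp), inv_mul_le_iff₀ (by linarith)]
    exact (h p).2

theorem sd_L (hd : 2 ≤ d) (hx : ND x) (hdet : a * e - b * c = 1) (hR : Rel a b c e x y)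
    {p : ℂ × ℂ} (hp : p ≠ 0) :
    sd y (L a b c e p) = sd x p * (rho a b c e p / rho a b c e (hF x p)) := by
  have hq : hF x p ≠ 0 := fun h => hp (hx p h)
  have h1 := (N2_pos hp).ne'
  have h2 := (N2_pos hq).ne'
  have h3 := (N2_pos (L_ne hdet hp)).ne'
  have h4 := (N2_pos (L_ne hdet hq)).ne'
  have h5 : (d : ℝ) ≠ 0 := by positivity
  unfold sd rho
  rw [wr_L hd hdet hR, hF_L hdet hR]
  field_simp

theorem sdn_L (hd : 2 ≤ d) (hx : ND x) (hdet : a * e - b * c = 1) (hR : Rel a b c e x y)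
    {p : ℂ × ℂ} (hp : p ≠ 0) (n : ℕ) :
    sdn y n (L a b c e p) = sdn x n p * (rho a b c e p / rho a b c e ((hF x)^[n] p)) := by
  induction n with
  | zero =>
    have := (rho_pos hdet hp).ne'
    simp [sdn, this]
  | succ n ih =>
    have h0 : sdn y (n + 1) (L a b c e p) =
        sdn y n (L a b c e p) * sd y ((hF y)^[n] (L a b c e p)) := Finset.prod_range_succ _ _
    have h1 : sdn x (n + 1) p = sdn x n p * sd x ((hF x)^[n] p) := Finset.prod_range_succ _ _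
    have hq : (hF x)^[n] p ≠ 0 := hx.iter_ne n hp
    have hq' : (hF x)^[n + 1] p ≠ 0 := hx.iter_ne (n + 1) hp
    rw [h0, h1, ih, hF_iter_L hdet hR, sd_L hd hx hdet hR hq, ← Function.iterate_succ_apply' (hF x)]
    have h3 := (rho_pos hdet hq).ne'
    have h4 := (rho_pos hdet hq').ne'
    field_simp

theorem cho_L (hdet : a * e - b * c = 1) {p q : ℂ × ℂ} (hp : p ≠ 0) (hq : q ≠ 0) :
    cho (L a b c e p) (L a b c e q) =
      cho p q / Real.sqrt (rho a b c e p * rho a b c e q) := by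
  have h1 := N2_pos hp
  have h2 := N2_pos hq
  have h3 := N2_pos (L_ne hdet hp)
  have h4 := N2_pos (L_ne hdet hq)
  unfold cho
  rw [cr_L hdet, div_div, ← Real.sqrt_mul (by positivity)]
  congr 2
  unfold rho
  field_simp

theorem cho_bd (hdet : a * e - b * c = 1) : ∃ K : ℝ, 1 ≤ K ∧ ∀ p q : ℂ × ℂ, p ≠ 0 → q ≠ 0 →
    cho (L a b c e p) (L a b c e q) ≤ K * cho p q ∧
      cho p q ≤ K * cho (L a b c e p) (L a b c e q) := by
  obtain ⟨K, hK, h⟩ := rho_bd hdet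
  have hK0 : 0 < K := by linarith
  refine ⟨K, hK, fun p q hp hq => ?_⟩
  have h1 := rho_pos hdet hp
  have h2 := rho_pos hdet hq
  have hc : 0 ≤ cho p q := by
    unfold cho
    positivity
  have h3 : Real.sqrt (rho a b c e p * rho a b c e q) ≤ K := by
    rw [Real.sqrt_le_left hK0.le]
    have := mul_le_mul (h p hp).1 (h q hq).1 h2.le hK0.le
    nlinarith
  have h4 : K⁻¹ ≤ Real.sqrt (rho a b c e p * rho a b c e q) := by
    rw [Real.le_sqrt' (inv_pos.2 hK0)]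
    have := mul_le_mul (h p hp).2 (h q hq).2 (by positivity) h1.le
    nlinarith
  have h5 : 0 < Real.sqrt (rho a b c e p * rho a b c e q) := Real.sqrt_pos.2 (by positivity)
  rw [cho_L hdet hp hq]
  constructor
  · rw [div_le_iff₀ h5]
    have : 1 ≤ K * Real.sqrt (rho a b c e p * rho a b c e q) := by
      have := mul_le_mul_of_nonneg_left h4 hK0.le
      rwa [mul_inv_cancel₀ hK0.ne'] at this
    nlinarith
  · rw [← mul_div_assoc, le_div_iff₀ h5, mul_comm K]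
    exact mul_le_mul_of_nonneg_left h3 hc

theorem CE_L (hd : 2 ≤ d) (hx : ND x) (hdet : a * e - b * c = 1) (hR : Rel a b c e x y)
    (h : CE x) : CE y := by
  intro q hq hw
  obtain ⟨p, hp, rfl⟩ := L_surj hdet hq
  rw [wr_L hd hdet hR] at hw
  obtain ⟨C, hC, μ, hμ, hg⟩ := h p hp hw
  obtain ⟨K, hK, hK'⟩ := rho_bd hdet
  have hK0 : 0 < K := by linarith
  have hFp : hF x p ≠ 0 := fun h => hp (hx p h)
  refine ⟨C * (rho a b c e (hF x p) / K), by have := rho_pos hdet hFp; positivity, μ, hμ,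
    fun n => ?_⟩
  rw [hF_L hdet hR, sdn_L hd hx hdet hR hFp]
  have h1 := rho_pos hdet hFp
  have hn : (hF x)^[n] (hF x p) ≠ 0 := hx.iter_ne n hFp
  have h2 := rho_pos hdet hn
  have h3 : rho a b c e (hF x p) / K ≤ rho a b c e (hF x p) / rho a b c e ((hF x)^[n] (hF x p)) :=
    div_le_div_of_nonneg_left h1.le h2 (hK' _ hn).1
  calc C * (rho a b c e (hF x p) / K) * μ ^ n = (C * μ ^ n) * (rho a b c e (hF x p) / K) := by ring
    _ ≤ sdn x n (hF x p) * (rho a b c e (hF x p) / rho a b c e ((hF x)^[n] (hF x p))) :=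
      mul_le_mul (hg n) h3 (by positivity) (le_trans (by positivity) (hg n))

theorem Jul_L (hx : ND x) (hdet : a * e - b * c = 1) (hR : Rel a b c e x y)
    {p : ℂ × ℂ} (hp : p ≠ 0) (h : Jul x p) : Jul y (L a b c e p) := by
  obtain ⟨ε, hε, hJ⟩ := h
  obtain ⟨K, hK, hK'⟩ := cho_bd hdet
  have hK0 : 0 < K := by linarith
  refine ⟨ε / K, by positivity, fun δ hδ => ?_⟩
  obtain ⟨q, hq, hpq, n, hn⟩ := hJ (δ / K) (by positivity)
  refine ⟨L a b c e q, L_ne hdet hq, ?_, n, ?_⟩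
  · refine ((hK' p q hp hq).1).trans_lt ?_
    rw [lt_div_iff₀ hK0] at hpq
    linarith
  · rw [hF_iter_L hdet hR, hF_iter_L hdet hR, div_le_iff₀ hK0, mul_comm]
    exact hn.trans (hK' _ _ (hx.iter_ne n hp) (hx.iter_ne n hq)).2

/-- quartic forms as components of homogeneous maps of degree four -/
theorem quar_hF (r : Fin 5 → ℂ) (p : ℂ × ℂ) :
    hF (d := 4) (fun ij => r ij.2) p = (quar r p, quar r p) := rfl

theorem quar_L (a b c e : ℂ) (hdet : a * e - b * c = 1) (r : Fin 5 → ℂ) :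
    ∃ r' : Fin 5 → ℂ, ∀ p, quar r' p = quar r (L a b c e p) := by
  obtain ⟨cj, -, -, -, -, hcj⟩ := CJ 4
  set X : CV 4 := fun ij => r ij.2 with hX
  set Y : CV 4 := cj ((e, -b), (-c, a)) X with hY
  refine ⟨fun j => a * Y (0, j) + b * Y (1, j), fun p => ?_⟩
  have h1 := hcj ((e, -b), (-c, a)) X p
  have h2 : ((a * p.1 - -b * p.2, e * p.2 - -c * p.1) : ℂ × ℂ) = L a b c e p := by
    refine Prod.ext ?_ ?_
    · change a * p.1 - -b * p.2 = a * p.1 + b * p.2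
      ring
    · change e * p.2 - -c * p.1 = c * p.1 + e * p.2
      ring
  simp only [h2] at h1
  rw [quar_hF] at h1
  have h3 : quar (fun j => a * Y (0, j) + b * Y (1, j)) p = a * (hF Y p).1 + b * (hF Y p).2 := by
    unfold quar hF
    simp only [Finset.mul_sum, ← Finset.sum_add_distrib]
    exact Finset.sum_congr rfl fun j _ => by ring
  rw [h3, hY, h1]
  simp only
  linear_combination quar r (L a b c e p) * hdet

theorem quar_ne {r : Fin 5 → ℂ} (h : ∀ p, quar r p = 0) : r = 0 := by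
  have h1 : (fun ij => r ij.2 : CV 4) = 0 := by
    apply hF_inj
    intro p
    rw [quar_hF, h]
    simp [hF]
  funext j
  exact congrFun h1 (0, j)

theorem Lat_L (hd : 2 ≤ d) (hdet : a * e - b * c = 1) (hR : Rel a b c e x y) (h : Lat y) :
    Lat x := by
  obtain ⟨r, hr, hL⟩ := h
  obtain ⟨r', hr'⟩ := quar_L a b c e hdet r
  refine ⟨r', ?_, fun p => ?_⟩
  · rintro rfl
    apply hr
    apply quar_ne
    intro q
    rw [← L_inv hdet q, ← hr']
    simp [quar]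
  · have := hL (L a b c e p)
    rw [wr_L hd hdet hR, hF_L hdet hR] at this
    rw [hr', hr', this]

end conj

/-- the critical orbits avoid some direction -/
theorem avoid {d : ℕ} (x : CV d) (hd : 2 ≤ d) (hce : CE x) :
    ∃ t : ℂ, ∀ p : ℂ × ℂ, p ≠ 0 → wr x p = 0 → ND x → ∀ n : ℕ,
      t * ((hF x)^[n] p).1 + ((hF x)^[n] p).2 ≠ 0 := by
  obtain ⟨hhom, ⟨W, -, hWe, hWc⟩, -⟩ := WR d x hd
  -- the polynomial is nonzero
  have hW : W ≠ 0 := by
    rintro rfl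
    have h0 : ∀ p, wr x p = 0 := by
      intro p
      by_cases h2 : p.2 = 0
      · have e : p = p.1 • ((1, 0) : ℂ × ℂ) := Prod.ext (by simp) (by simp [h2])
        rw [e, hhom, ← hWc]
        simp
      · have e : p = p.2 • ((p.1 / p.2, 1) : ℂ × ℂ) :=
          Prod.ext (by simp [mul_div_cancel₀ _ h2]) (by simp)
        rw [e, hhom, ← hWe]
        simp
    obtain ⟨C, hC, μ, hμ, hg⟩ := hce (1, 0) (by simp) (h0 _)
    have h1 := hg 1
    have h2 : sdn x 1 (hF x (1, 0)) = 0 := by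
      unfold sdn sd
      simp [h0]
    rw [h2, pow_one] at h1
    have : 0 < C * μ := by positivity
    linarith
  -- representatives of the critical directions
  set Cr : Set (ℂ × ℂ) := insert ((1, 0) : ℂ × ℂ) ((fun ζ : ℂ => ((ζ, 1) : ℂ × ℂ)) ''
    {ζ | W.IsRoot ζ}) with hCr
  have hCrc : Cr.Countable := by
    refine Set.Countable.insert _ (Set.Countable.image ?_ _)
    exact (Polynomial.finite_setOfPred_isRoot hW).countable
  set B : Set ℂ := ⋃ n : ℕ, (fun q : ℂ × ℂ => - (((hF x)^[n] q).2 / ((hF x)^[n] q).1)) '' Cr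
    with hB
  have hBc : B.Countable := Set.countable_iUnion fun n => hCrc.image _
  obtain ⟨t, ht⟩ : (Bᶜ).Nonempty := (hBc.dense_compl ℝ).nonempty
  refine ⟨t, fun p hp hw hx n h => ht ?_⟩
  -- representative
  have hrep : ∃ q ∈ Cr, ∃ s : ℂ, s ≠ 0 ∧ p = s • q := by
    by_cases h2 : p.2 = 0
    · have h1 : p.1 ≠ 0 := fun h1 => hp (Prod.ext h1 h2)
      exact ⟨(1, 0), Set.mem_insert _ _, p.1, h1, Prod.ext (by simp) (by simp [h2])⟩
    · have e : p = p.2 • ((p.1 / p.2, 1) : ℂ × ℂ) :=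
        Prod.ext (by simp [mul_div_cancel₀ _ h2]) (by simp)
      refine ⟨(p.1 / p.2, 1), Set.mem_insert_of_mem _ ⟨p.1 / p.2, ?_, rfl⟩, p.2, h2, e⟩
      change W.eval _ = 0
      rw [hWe]
      rw [e, hhom] at hw
      exact (mul_eq_zero.1 hw).resolve_left (pow_ne_zero _ h2)
  obtain ⟨q, hq, s, hs, rfl⟩ := hrep
  refine Set.mem_iUnion.2 ⟨n, q, hq, ?_⟩
  rw [hF_iter_smul] at h
  simp only [Prod.smul_fst, Prod.smul_snd, smul_eq_mul] at h
  have hs' : s ^ (d ^ n) ≠ 0 := pow_ne_zero _ hs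
  have h1 : t * ((hF x)^[n] q).1 + ((hF x)^[n] q).2 = 0 := by
    have h3 : s ^ (d ^ n) * (t * ((hF x)^[n] q).1 + ((hF x)^[n] q).2) = 0 := by
      linear_combination h
    exact (mul_eq_zero.1 h3).resolve_left hs'
  have hq0 : (hF x)^[n] q ≠ 0 := hx.iter_ne n (fun h => hp (by rw [h, smul_zero]))
  have h2 : ((hF x)^[n] q).1 ≠ 0 := by
    intro h2
    rw [h2, mul_zero, zero_add] at h1
    exact hq0 (Prod.ext h2 h1)
  change - (((hF x)^[n] q).2 / ((hF x)^[n] q).1) = t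
  rw [← neg_div, div_eq_iff h2]
  linear_combination -h1

theorem t_NORM : S_NORM := by
  intro d x hX hyp' ε hε
  have hd := hX.hd
  have hd1 : 1 ≤ d := by omega
  obtain ⟨t, ht⟩ := avoid x hd hX.ce
  obtain ⟨cj, hcd, -, -, -, hcj⟩ := CJ d
  have hdet : (1 : ℂ) * 1 - 0 * t = 1 := by ring
  have hdet' : (1 : ℂ) * 1 - 0 * (-t) = 1 := by ring
  set m : (ℂ × ℂ) × (ℂ × ℂ) := ((1, 0), (t, 1)) with hm
  set mi : (ℂ × ℂ) × (ℂ × ℂ) := ((1, 0), (-t, 1)) with hmi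
  set y : CV d := cj m x with hy
  have hR1 : Rel 1 0 t 1 x y := fun p => by rw [hy, hcj m x p]
  have hR2 : ∀ z : CV d, Rel 1 0 (-t) 1 z (cj mi z) := fun z p => by rw [hcj mi z p]
  have hNDy : ND y := nd_of_rel hdet hR1 hX.nd
  have hback : cj mi y = x := by
    apply hF_inj
    intro p
    rw [hR2 y p]
    have e1 := rel_apply hdet hR1 p
    have e2 : ((1 * p.1 - 0 * p.2, 1 * p.2 - -t * p.1) : ℂ × ℂ) =
        (1 * p.1 + 0 * p.2, t * p.1 + 1 * p.2) := by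
      refine Prod.ext ?_ ?_
      · change 1 * p.1 - 0 * p.2 = 1 * p.1 + 0 * p.2
        ring
      · change 1 * p.2 - -t * p.1 = t * p.1 + 1 * p.2
        ring
    rw [e2, e1]
    refine Prod.ext ?_ ?_
    · change 1 * (1 * (hF x p).1 + 0 * (hF x p).2) +
        0 * (t * (hF x p).1 + 1 * (hF x p).2) = (hF x p).1
      ring
    · change -t * (1 * (hF x p).1 + 0 * (hF x p).2) +
        1 * (t * (hF x p).1 + 1 * (hF x p).2) = (hF x p).2
      ring
  -- the hypotheses for `y`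
  have hHy : Hyp y := by
    refine ⟨hd, hNDy, CE_L hd hX.nd hdet hR1 hX.ce, fun q hq => ?_, fun hL =>
      hX.lat (Lat_L hd hdet hR1 hL)⟩
    obtain ⟨p, hp, rfl⟩ := L_surj hdet hq
    exact Jul_L hX.nd hdet hR1 hp (hX.jul p hp)
  have hNy2 : ∀ c : ℂ × ℂ, c ≠ 0 → wr y c = 0 → ∀ n : ℕ, ((hF y)^[n] c).2 ≠ 0 := by
    intro q hq hw n
    obtain ⟨p, hp, rfl⟩ := L_surj hdet hq
    rw [wr_L hd hdet hR1] at hw
    rw [hF_iter_L hdet hR1]
    change t * ((hF x)^[n] p).1 + 1 * ((hF x)^[n] p).2 ≠ 0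
    rw [one_mul]
    exact ht p hp hw hX.nd n
  have hNy : Nrm y := ⟨fun h => hNy2 (1, 0) (by simp) h 0 rfl, hNy2⟩
  have hcont : Continuous (fun z : CV d => cj mi z) :=
    hcd.continuous.comp (continuous_const.prodMk continuous_id)
  obtain ⟨δ, hδ, hδε⟩ := Metric.continuous_iff.1 hcont y ε hε
  obtain ⟨z, hz, hNDz, hHz⟩ := hyp' y hHy hNy δ hδ
  have hND2 : ND (cj mi z) := nd_of_rel hdet' (hR2 z) hNDz
  refine ⟨cj mi z, ?_, hND2, ?_⟩
  · have := hδε z (by rw [dist_eq_norm]; exact hz)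
    rw [hback, dist_eq_norm] at this
    exact this
  · obtain ⟨h', hh', -⟩ := MOB SP 1 0 (-t) 1 (by rw [hdet']; exact one_ne_zero)
    exact hyp h' (semi SP hd1 hNDz hND2 hdet' (hR2 z) h' hh') hHz

end Pool.Agent.H922.HY211
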